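import Mathlib
import Pool.Agent.Lib.helper15.Vol2

namespace Pool.Agent.Results.MP_214325_an.Darboux
open Set Filter Topology Matrix

/-- `y = (u, u', u'', u''')` is the jet on `[0, b]` of a solution of
`u'''' + p₂ u'' + p₁ u' + p₀ u = l u` -/
def Jet (b : ℝ) (p : Fin 3 → ℝ → ℂ) (l : ℂ) (y : ℝ → Fin 4 → ℂ) : Prop :=
  ∀ x ∈ Icc 0 b, HasDerivWithinAt y
    ![y x 1, y x 2, y x 3, l * y x 0 - (p 2 x * y x 2 + p 1 x * y x 1 + p 0 x * y x 0)] (Icc 0 b) x

/-- `N l` is the Floquet matrix: its `j`-th column is the jet at `b` of the `j`-th fundamental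
solution -/
def IsFloquet (b : ℝ) (p : Fin 3 → ℝ → ℂ) (N : ℂ → Matrix (Fin 4) (Fin 4) ℂ) : Prop :=
  ∀ l j, ∃ y, Jet b p l y ∧ y 0 = Pi.single j 1 ∧ ∀ k, N l k j = y b k

/-- the operator `d⁴/dx⁴ + p₂ d²/dx² + p₁ d/dx + p₀` -/
noncomputable def L (p : Fin 3 → ℝ → ℂ) (u : ℝ → ℂ) (x : ℝ) : ℂ :=
  iteratedDeriv 4 u x + p 2 x * iteratedDeriv 2 u x + p 1 x * deriv u x + p 0 x * u x

/-- the Hill operator `d²/dx² + q` -/
noncomputable def Hill (q : ℝ → ℂ) (u : ℝ → ℂ) (x : ℝ) : ℂ := iteratedDeriv 2 u x + q x * u x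

open BoundedContinuousFunction hiding C
open Pool.Agent.Lib.helper15.Vol Complex ContinuousLinearMap

lemma z2 (x : ℝ) : 1 ≤ ‖2 + exp (x * I)‖ := by
  have := norm_sub_le (2 + exp (x * I)) (exp (x * I))
  rw [add_sub_cancel_right, norm_exp_ofReal_mul_I, Complex.norm_two] at this
  linarith

lemma z0 (x : ℝ) : 2 + exp (x * I) ≠ 0 := fun h => by have := z2 x; rw [h, norm_zero] at this; linarith

noncomputable def s : ℝ →ᵇ ℂ := ofNormedAddCommGroup (fun x => exp (x * I) / (2 + exp (x * I)))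
  (Continuous.div (by fun_prop) (by fun_prop) z0) 1 fun x => by
    rw [norm_div, norm_exp_ofReal_mul_I]; exact div_le_one_of_le₀ (z2 x) (norm_nonneg _)

noncomputable def y : ℝ →ᵇ ℂ := ((1 - I) / 2) • 1 + I • s
noncomputable def w : ℝ →ᵇ ℂ := y - y * y - (1 / 2 : ℂ) • 1
noncomputable def P : Fin 3 → ℝ →ᵇ ℂ :=
  ![w * ((8 : ℂ) • (y * y) - (10 : ℂ) • y + (4 : ℂ) • 1), w * ((6 : ℂ) • 1 - (8 : ℂ) • y), (4 : ℂ) • w]

lemma y_ap (x : ℝ) : y x = (1 - I) / 2 + I * (exp (x * I) / (2 + exp (x * I))) := by simp [y, s]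
lemma P0 (x : ℝ) : P 0 x = (y x - y x * y x - 1 / 2) * (8 * (y x * y x) - 10 * y x + 4) := by
  simp [P, w]
lemma P1 (x : ℝ) : P 1 x = (y x - y x * y x - 1 / 2) * (6 - 8 * y x) := by simp [P, w]
lemma P2 (x : ℝ) : P 2 x = 4 * (y x - y x * y x - 1 / 2) := by simp [P, w]

lemma yd (x : ℝ) : HasDerivAt y (y x - y x * y x - 1 / 2) x := by
  have h : HasDerivAt (fun x : ℝ => exp (x * I)) (exp (x * I) * I) x :=
    (((hasDerivAt_id' (x : ℂ)).mul_const I).cexp.comp_ofReal).congr_deriv (by ring)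
  rw [y_ap, funext y_ap]
  refine (((h.fun_div (h.const_add 2) (z0 x)).const_mul I).const_add _).congr_deriv ?_
  have := z0 x
  generalize exp (x * I) = z at this
  field_simp
  linear_combination (12 + 12 * z + 3 * z ^ 2 - 8 * z - 8 - 2 * z ^ 2) * I_sq

lemma ys : ContDiff ℝ ⊤ y := by
  rw [funext y_ap]
  have h : ContDiff ℝ ⊤ fun x : ℝ => exp (x * I) := (ofRealCLM.contDiff.mul contDiff_const).cexp
  exact contDiff_const.add (contDiff_const.mul (h.mul ((contDiff_const.add h).inv z0)))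

lemma yp (x : ℝ) : y (x + 2 * Real.pi) = y x := by
  simp [y_ap, add_mul, exp_add, exp_two_pi_mul_I]

lemma y0 : y 0 = 1 / 2 - I / 6 := by simp [y_ap]; ring

noncomputable def B (k : Fin 4) : (Fin 4 → ℂ) →L[ℂ] (Fin 4 → ℂ) := pi ![0, 0, 0, proj k]
noncomputable def N4 : (Fin 4 → ℂ) →L[ℂ] (Fin 4 → ℂ) := pi ![proj 1, proj 2, proj 3, 0]
noncomputable def A4 (l : ℂ) : ℝ →ᵇ ((Fin 4 → ℂ) →L[ℂ] (Fin 4 → ℂ)) :=
  BoundedContinuousFunction.const ℝ N4 -
    (sm (B 2) (P 2) + sm (B 1) (P 1) + sm (B 0) (P 0)) + sm (B 0) (l • 1)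

lemma A4_ap (l : ℂ) (x : ℝ) (y : Fin 4 → ℂ) : A4 l x y =
    ![y 1, y 2, y 3, l * y 0 - (P 2 x * y 2 + P 1 x * y 1 + P 0 x * y 0)] := by
  ext k
  fin_cases k <;> simp [A4, sm_ap, B, N4]
  ring

noncomputable def T4 (l : ℂ) := T (2 * Real.pi) (A4 l)

lemma Tc {E : Type} [NormedAddCommGroup E] [NormedSpace ℂ E] [CompleteSpace E] (b : ℝ)
    (A : ℝ →ᵇ (E →L[ℂ] E)) (C : E →L[ℂ] E) : Continuous fun l : ℂ => T b (A + sm C (l • 1)) := by
  refine continuous_iff_continuousAt.2 fun l => AnalyticAt.continuousAt (𝕜 := ℂ) ?_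
  have h1 : AnalyticAt ℂ (fun l : ℂ => l • (1 : ℝ →ᵇ ℂ)) l := analyticAt_id.smul analyticAt_const
  have h2 : AnalyticAt ℂ (fun f : ℝ →ᵇ ℂ => T b (A + sm C f)) (l • 1) :=
    (T_an _).comp (analyticAt_const.add (ContinuousLinearMap.analyticAt (𝕜 := ℂ) (E := ℝ →ᵇ ℂ)
      (F := ℝ →ᵇ (E →L[ℂ] E)) (sm C) _))
  exact h2.comp (f := fun l : ℂ => l • (1 : ℝ →ᵇ ℂ)) h1

noncomputable def N (l : ℂ) : Matrix (Fin 4) (Fin 4) ℂ := LinearMap.toMatrix' (T4 l).toLinearMap

lemma Nc : Continuous N := continuous_matrix fun i j => by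
  simp only [N, LinearMap.toMatrix'_apply]
  exact (continuous_apply i).comp ((show Continuous T4 from Tc _ _ _).clm_apply continuous_const)

open Polynomial in
noncomputable def Jp (κ : ℂ) : Fin 4 → ℂ[X] :=
  ![C κ - X, C κ ^ 2 - C κ * X - (X - X * X - C (1 / 2)),
    C κ ^ 3 - C κ ^ 2 * X - (C 2 * C κ + 1 - C 2 * X) * (X - X * X - C (1 / 2)),
    C κ ^ 4 - C κ ^ 3 * X - (C 3 * C κ ^ 2 + C 3 * C κ * (1 - C 2 * X) + (1 - C 2 * X) * (1 - C 2 * X) -
      C 2 * (X - X * X - C (1 / 2))) * (X - X * X - C (1 / 2))]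

noncomputable def J (κ t : ℂ) (k : Fin 4) : ℂ := (Jp κ k).eval t

lemma root (κ : ℂ) : (scalar (Fin 4) (exp (κ * (2 * Real.pi))) - N (κ ^ 4)).det = 0 := by
  have he : ∀ x : ℝ, HasDerivAt (fun x : ℝ => exp (κ * x)) (exp (κ * x) * κ) x := fun x =>
    (((hasDerivAt_id' (x : ℂ)).const_mul κ).cexp.comp_ofReal).congr_deriv (by ring)
  have := uniq b0 (A4 (κ ^ 4)) (y := fun x => exp (κ * x) • J κ (y x)) fun x _ => by
    simp only [A4_ap]
    rw [hasDerivWithinAt_pi]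
    intro k
    refine (((he x).fun_mul (((Jp κ k).hasDerivAt (y x)).comp x (yd x))).congr_deriv
      ?_).hasDerivWithinAt
    fin_cases k <;> simp [J, Jp, P0, P1, P2, ← Polynomial.C_pow, -map_pow] <;> ring
  have e := yp 0
  rw [zero_add] at e
  simp only [e, ← T_ap, ofReal_zero, mul_zero, exp_zero, one_smul] at this
  refine Matrix.exists_mulVec_eq_zero_iff.1 ⟨J κ (y 0), fun h => ?_, ?_⟩
  · have a0 := congrFun h 0
    have a1 := congrFun h 1
    simp [J, Jp, y0] at a0 a1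
    have : (2 / 9 : ℂ) = 0 := by linear_combination a1 - κ * a0 - (1 / 36) * I_sq
    norm_num at this
  · rw [sub_mulVec, N, LinearMap.toMatrix'_mulVec, sub_eq_zero]
    refine Eq.trans ?_ this
    ext k
    simp [scalar_apply]

lemma cp (r κ : ℂ) : (scalar (Fin 4) r - N (κ ^ 4)).det =
    ∏ j : Fin 4, (r - exp (I ^ (j : ℕ) * κ * (2 * Real.pi))) := by
  have hd : Dense (range fun p : Fin 4 × Fin 4 × ℤ =>
      p.2.2 * I / (I ^ (p.1 : ℕ) - I ^ (p.2.1 : ℕ)))ᶜ := (countable_range _).dense_compl ℂ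
  refine congrFun (Continuous.ext_on hd
    (f := fun κ => (scalar (Fin 4) r - N (κ ^ 4)).det)
    (g := fun κ => ∏ j : Fin 4, (r - exp (I ^ (j : ℕ) * κ * (2 * Real.pi))))
    ((continuous_const.sub (Nc.comp (continuous_pow 4))).matrix_det)
    (by fun_prop) fun κ hκ => ?_) κ
  have inj : Function.Injective fun j : Fin 4 => exp (I ^ (j : ℕ) * κ * (2 * Real.pi)) := fun i j h => by
    by_contra hij
    obtain ⟨n, hn⟩ := exp_eq_exp_iff_exists_int.1 h
    have h0 : I ^ (i : ℕ) - I ^ (j : ℕ) ≠ 0 := sub_ne_zero.2 fun e =>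
      hij (Fin.ext (isPrimitiveRoot_I.pow_inj i.2 j.2 e))
    refine hκ ⟨(i, j, n), (div_eq_iff h0).2 (mul_left_cancel₀ (a := 2 * (Real.pi : ℂ))
      (by simp) ?_)⟩
    linear_combination -hn
  have hm : (∏ j : Fin 4, (Polynomial.X - Polynomial.C (exp (I ^ (j : ℕ) * κ * (2 * Real.pi))))).Monic :=
    Polynomial.monic_prod_of_monic _ _ fun _ _ => Polynomial.monic_X_sub_C _
  have hdeg : (N (κ ^ 4)).charpoly.degree = 4 := by simp
  have := Polynomial.eq_of_degree_sub_lt_of_eval_index_eq Finset.univ inj.injOn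
    (f := (N (κ ^ 4)).charpoly)
    (g := ∏ j : Fin 4, (Polynomial.X - Polynomial.C (exp (I ^ (j : ℕ) * κ * (2 * Real.pi)))))
    ((Polynomial.degree_sub_lt_left (by rw [hdeg, Polynomial.degree_prod]; simp)
      (Matrix.charpoly_monic _).ne_zero (by rw [hm, Matrix.charpoly_monic])).trans_eq (by simp))
    fun j _ => by
      rw [Matrix.eval_charpoly, Polynomial.eval_prod, Finset.prod_eq_zero (Finset.mem_univ j) (by simp),
        ← root (I ^ (j : ℕ) * κ), mul_pow, ← pow_mul, mul_comm (j : ℕ), pow_mul, I_pow_four, one_pow, one_mul]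
  simp only [Function.comp, ← Matrix.eval_charpoly, this, Polynomial.eval_prod, Polynomial.eval_sub,
    Polynomial.eval_X, Polynomial.eval_C]

theorem result : ∃ (b : ℝ) (p : Fin 3 → ℝ → ℂ) (N : ℂ → Matrix (Fin 4) (Fin 4) ℂ) (Δ : ℂ → ℂ),
    0 < b ∧ (∀ k, ContDiff ℝ ⊤ (p k) ∧ Function.Periodic (p k) b) ∧ IsFloquet b p N ∧
    Differentiable ℂ Δ ∧
    (∀ w r : ℂ, r ≠ 0 → ((scalar (Fin 4) r - N (w ^ 2)).det = 0 ↔
      (r + r⁻¹ - Δ w) * (r + r⁻¹ - Δ (-w)) = 0)) ∧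
    ∀ q : ℝ → ℂ, ContDiff ℝ 2 q → ¬ ∀ u : ℝ → ℂ, ContDiff ℝ ⊤ u → L p u = Hill q (Hill q u) := by
  refine ⟨2 * Real.pi, fun k => P k, N, fun w => Δ (ff 0 w), by positivity, fun k => ⟨?_, fun x => ?_⟩,
    fun l j => ⟨sol (2 * Real.pi) (A4 l) (Pi.single j 1), by
      simpa only [Jet, Sol, A4_ap] using sol_Sol (b := 2 * Real.pi) (A4 l) (Pi.single j 1),
      sol0 b0 _ _, fun k => by simp [N, T4, T_ap]⟩,
    fun w => ((Δ_an _).comp (F_an 0 w)).differentiableAt, fun w r hr => ?_, fun q hq h => ?_⟩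
  · have := ys
    fin_cases k
    · change ContDiff ℝ ⊤ (P 0)
      rw [funext P0]; fun_prop
    · change ContDiff ℝ ⊤ (P 1)
      rw [funext P1]; fun_prop
    · change ContDiff ℝ ⊤ (P 2)
      rw [funext P2]; fun_prop
  · fin_cases k <;> simp [P0, P1, P2, yp]
  · obtain ⟨κ, rfl⟩ := IsAlgClosed.exists_pow_nat_eq w two_pos
    have a := free κ
    have b := free (I * κ)
    rw [mul_pow, I_sq, neg_one_mul] at b
    have a' : exp (κ * (2 * Real.pi)) * exp (-κ * (2 * Real.pi)) = 1 := by rw [← exp_add]; simp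
    have b' : exp (I * κ * (2 * Real.pi)) * exp (-I * κ * (2 * Real.pi)) = 1 := by
      rw [← exp_add]; simp
    have key : ∀ ρ σ D : ℂ, ρ * σ = 1 → ρ ^ 2 - D * ρ + 1 = 0 →
        r + r⁻¹ - D = r⁻¹ * ((r - ρ) * (r - σ)) := fun ρ σ D h1 h2 => by
      field_simp
      linear_combination r * σ * h2 - (1 + r * ρ - r * D) * h1
    simp only
    rw [← pow_mul, show 2 * 2 = 4 from rfl, cp, key _ _ _ a' a, key _ _ _ b' b, Fin.prod_univ_four]
    simp [hr, or_assoc, or_left_comm]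
  · have d : ∀ {f : ℝ → ℂ}, ContDiff ℝ 2 f → ∀ x, HasDerivAt f (deriv f x) x ∧
        HasDerivAt (deriv f) (deriv (deriv f) x) x := fun hf x =>
      ⟨(hf.differentiable (by norm_num) x).hasDerivAt,
        ((hf.iterate_deriv' 1 1).differentiable (by norm_num) x).hasDerivAt⟩
    have i2 : ∀ f : ℝ → ℂ, iteratedDeriv 2 f = deriv (deriv f) := fun f => by
      rw [iteratedDeriv_succ, iteratedDeriv_one]
    have E : ∀ κ : ℂ, ∀ x, κ ^ 4 + P 2 x * κ ^ 2 + P 1 x * κ + P 0 x =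
        deriv (deriv q) x + 2 * κ * deriv q x + (κ ^ 2 + q x) ^ 2 := fun κ x => by
      have he : ∀ x : ℝ, HasDerivAt (fun x : ℝ => exp (κ * x)) (κ * exp (κ * x)) x := fun x =>
        (((hasDerivAt_id' (x : ℂ)).const_mul κ).cexp.comp_ofReal).congr_deriv (by ring)
      have hn : ∀ n, iteratedDeriv n (fun x : ℝ => exp (κ * x)) = fun x : ℝ => κ ^ n * exp (κ * x) :=
        fun n => by
          induction n with
          | zero => simp
          | succ n ih => rw [iteratedDeriv_succ, ih]; exact funext fun x =>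
              (((he x).const_mul _).congr_deriv (by ring)).deriv
      have h1 : Hill q (fun x : ℝ => exp (κ * x)) = fun x : ℝ => (κ ^ 2 + q x) * exp (κ * x) :=
        funext fun x => by simp only [Hill, hn]; ring
      have h2 : deriv (fun x : ℝ => (κ ^ 2 + q x) * exp (κ * x)) =
          fun x : ℝ => (deriv q x + κ * (κ ^ 2 + q x)) * exp (κ * x) := funext fun x =>
        ((((d hq x).1.const_add _).fun_mul (he x)).congr_deriv (by ring)).deriv
      have h3 := congrFun (h (fun x : ℝ => exp (κ * x))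
        (contDiff_const.mul ofRealCLM.contDiff).cexp) x
      rw [h1, Hill, i2, h2, (((d hq x).2.fun_add (((d hq x).1.const_add _).const_mul κ)).fun_mul
        (he x)).deriv, L, hn, hn, (he x).deriv] at h3
      refine mul_right_cancel₀ (exp_ne_zero (κ * x)) ?_
      linear_combination h3
    have e1 : ∀ x, P 2 x = 2 * q x := fun x => by
      linear_combination (1 / 2) * E 1 x + (1 / 2) * E (-1) x - E 0 x
    have e2 : P 1 0 = 2 * deriv q 0 := by linear_combination (1 / 2) * E 1 0 - (1 / 2) * E (-1) 0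
    have e3 := ((((yd 0).fun_sub ((yd 0).fun_mul (yd 0))).sub_const (1 / 2)).const_mul 4).unique
      (by rw [← funext P2, funext e1]; exact (d hq 0).1.const_mul 2)
    rw [← e2, P1, y0] at e3
    have : (4 / 9 : ℂ) = 0 := by linear_combination e3 - (1 / 18) * I_sq
    norm_num at this

end Pool.Agent.Results.MP_214325_an.Darboux
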